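import Pool.Agent.Work.MP_9ac17e_al.Main
import Pool.Agent.Work.MP_9ac17e_al.Closed
import Pool.Agent.Work.MP_9ac17e_al.Iso

/-!
# Algebraically closed ground fields

Let `K` be a field with a primitive recursive numbering (for example the rationals, see `Rat.lean`) and
`L` an algebraically closed extension field of `K`. Isomorphism of the `L`-algebras which are presented
by finite presentations with coefficients in `K` is decidable.
-/

set_option autoImplicit false

namespace Pool.Agent.Results.MP_9ac17e_al.AlgebraicallyClosed

open Pool.Agent.Work.MP_9ac17e_al

theorem result (K C : Type) [Field K] [Primcodable C] (N : NumF K C)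
    (hs : Function.Surjective N.val) (L : Type) [Field L] [Algebra K L] [IsAlgClosed L] :
    ComputablePred (fun q : Pres C × Pres C =>
      PIso (fun c => algebraMap K L (N.val c)) q.1 q.2) := by
  simp only [pIso_iff]
  exact ComputablePred.computable_of_manyOneReducible (main_equiv_base N hs L).1
    (computable_fdIso_closed N hs L)

end Pool.Agent.Results.MP_9ac17e_al.AlgebraicallyClosed
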