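import Pool.Agent.Work.MP_9ac17e_al.Main
import Pool.Agent.Work.MP_9ac17e_al.Fin
import Pool.Agent.Work.MP_9ac17e_al.Iso

/-!
# Finite ground fields

Over every finite field the isomorphism problem for finitely presented nonassociative algebras is
decidable.
-/

set_option autoImplicit false

namespace Pool.Agent.Results.MP_9ac17e_al.FiniteFields

open Pool.Agent.Work.MP_9ac17e_al

theorem result (K C : Type) [Field K] [Primcodable C] [Finite C] (val : C → K)
    (h : Function.Surjective val) :
    ComputablePred (fun q : Pres C × Pres C => PIso val q.1 q.2) := by
  simp only [pIso_iff]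
  obtain ⟨N, hN⟩ := exists_numF_finite val h
  have hs : Function.Surjective N.val := by
    rw [hN]
    exact h
  have h1 := (main_equiv N hs).1
  have h2 := computable_fdIso_finite N hs
  rw [hN] at h1 h2
  exact ComputablePred.computable_of_manyOneReducible h1 h2

end Pool.Agent.Results.MP_9ac17e_al.FiniteFields
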