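import Pool.Agent.Work.MP_9ac17e_al.Rig.F

/-!
# Isomorphism over the rationals if there are finitely many isomorphisms over the algebraic closure

A partial algorithm for isomorphism over `ℚ`: it never gives a wrong answer, and it halts on every
pair of isomorphic presentations and on every pair for which there are only finitely many
isomorphisms over some algebraically closed field, or one of the presented algebras has only finitely
many automorphisms over some algebraically closed field.
-/

set_option autoImplicit false

namespace Pool.Agent.Results.MP_9ac17e_al.FiniteIsos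

open Pool.Agent.Work.MP_9ac17e_al

theorem result : ∃ f : Pres ((ℕ × ℕ) × ℕ) × Pres ((ℕ × ℕ) × ℕ) →. Bool, Partrec f ∧
    (∀ q b, b ∈ f q → (b = true ↔ PIso valQ q.1 q.2)) ∧
    (∀ q, PIso valQ q.1 q.2 → (f q).Dom) ∧
    ∀ (L : Type) [Field L] [Algebra ℚ L] [IsAlgClosed L]
      (q : Pres ((ℕ × ℕ) × ℕ) × Pres ((ℕ × ℕ) × ℕ)),
      (FinIsos (fun a => algebraMap ℚ L (valQ a)) q.1 q.2 ∨
        FinIsos (fun a => algebraMap ℚ L (valQ a)) q.1 q.1 ∨
        FinIsos (fun a => algebraMap ℚ L (valQ a)) q.2 q.2) → (f q).Dom := Rig.main

end Pool.Agent.Results.MP_9ac17e_al.FiniteIsos
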