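import Pool.Agent.Work.MP_9ac17e_al.Main
import Pool.Agent.Work.MP_9ac17e_al.Rat
import Pool.Agent.Work.MP_9ac17e_al.Iso

/-!
# Finitely presented algebras and finite-dimensional algebras

The isomorphism problem for finitely presented nonassociative algebras over the rationals (exactly the
predicate of the frozen statement) is many-one equivalent to the isomorphism problem for
finite-dimensional algebras over the rationals given by structure constants.
-/

set_option autoImplicit false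

namespace Pool.Agent.Results.MP_9ac17e_al.ManyOne

open Pool.Agent.Work.MP_9ac17e_al

theorem result :
  ∀ (mon : ∀ n : ℕ, List ℕ → MonoidAlgebra ℚ (FreeMagma (Fin n))),
    mon = (fun (n : ℕ) (w : List ℕ) =>
      (List.foldl (fun (s : List (MonoidAlgebra ℚ (FreeMagma (Fin n)))) (t : ℕ) =>
        if t = 0 then (s.tail.headD 0 * s.headD 0) :: s.tail.tail
        else (if h : t - 1 < n then MonoidAlgebra.single (FreeMagma.of (⟨t - 1, h⟩ : Fin n)) (1 : ℚ) else 0) :: s)
        ([] : List (MonoidAlgebra ℚ (FreeMagma (Fin n)))) w).headD 0) →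
  ∀ (I : ∀ p : ℕ × List (List ((ℕ × ℕ) × List ℕ)), Submodule ℚ (MonoidAlgebra ℚ (FreeMagma (Fin p.1)))),
    I = (fun (p : ℕ × List (List ((ℕ × ℕ) × List ℕ))) =>
      sInf {S : Submodule ℚ (MonoidAlgebra ℚ (FreeMagma (Fin p.1))) |
        (∀ r ∈ p.2, (List.map (fun (c : (ℕ × ℕ) × List ℕ) =>
            (((c.1.1 : ℚ) - (c.1.2 : ℚ)) • mon p.1 c.2)) r).sum ∈ S) ∧
        ∀ a x : MonoidAlgebra ℚ (FreeMagma (Fin p.1)), x ∈ S → a * x ∈ S ∧ x * a ∈ S}) →
  ManyOneEquiv (fun (pq : (ℕ × List (List ((ℕ × ℕ) × List ℕ))) × (ℕ × List (List ((ℕ × ℕ) × List ℕ)))) =>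
    ∃ e : (MonoidAlgebra ℚ (FreeMagma (Fin pq.1.1)) ⧸ I pq.1) ≃ₗ[ℚ] (MonoidAlgebra ℚ (FreeMagma (Fin pq.2.1)) ⧸ I pq.2),
      ∀ (x y : MonoidAlgebra ℚ (FreeMagma (Fin pq.1.1))) (u v : MonoidAlgebra ℚ (FreeMagma (Fin pq.2.1))),
        e (Submodule.Quotient.mk x) = Submodule.Quotient.mk u →
        e (Submodule.Quotient.mk y) = Submodule.Quotient.mk v →
        e (Submodule.Quotient.mk (x * y)) = Submodule.Quotient.mk (u * v))
    (fun (q : FD ((ℕ × ℕ) × ℕ) × FD ((ℕ × ℕ) × ℕ)) => FIso valQ q.1 q.2) := by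
  intro mon hmon I hI
  subst hmon
  subst hI
  obtain ⟨N, hN⟩ := exists_numF_rat
  have h := main_equiv N (by rw [hN]; exact valQ_surjective)
  rw [hN] at h
  simp only [fIso_iff]
  exact ManyOneEquiv.trans ⟨reduce_int, reduce_rat⟩ h

end Pool.Agent.Results.MP_9ac17e_al.ManyOne
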